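import Pool.Agent.LibSmale7.Main

/-!
The definitions are in `Pool.Agent.LibSmale7.Defs`; the proof is in `Pool.Agent.LibSmale7.Main`.
-/

namespace Pool.Agent.Results.MP_b52344_lc.MachineConstants

open Pool.Agent.LibSmale7

/-- There are a constant `C` and a program over the reals (exact arithmetic, comparisons, real
constants, unit cost) which for every `N ≥ 2` writes, in a number of steps polynomial in `N`, the
coordinates of `N` distinct points of the sphere whose logarithmic energy is at most
`C * log N` above the minimal one. -/
theorem result :
    ∃ (C : ℝ) (prg : Prog) (A d : ℕ), ∀ N : ℕ, 2 ≤ N →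
      ∃ x : Fin N → E3, IsConfig x ∧
        (∃ t ≤ A * N ^ d, ∃ σ', Exec prg (input N) [] t σ' (coords x)) ∧
        energy x - minEnergy N ≤ C * Real.log N :=
  near_minimisers_in_polynomial_time

end Pool.Agent.Results.MP_b52344_lc.MachineConstants
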